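import Pool.Agent.H290R4.ChernZ

/-!
# Projective modules over torsion-free integral group rings: vanishing of all positive
# dimensional Chern-Connes numbers for locally residually finite and for linear groups

Let `G` be a torsion-free group (more generally every finitely generated subgroup of `G` misses
elements of order `p` for one prime `p`).  Suppose that every finitely generated subgroup of `G` is
residually finite, or that `G` is a linear group over some field, or only that no `g ≠ 1` of a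
finitely generated subgroup `H` is conjugate in `H` to some `g ^ (p ^ j)`, `j ≥ 1`, for every prime
`p`.  Then for every idempotent matrix `e` over `k[G]` (`k` any commutative ring, for instance the
integers) and EVERY cycle `(Ω, δ, T)` of dimension `2 n ≥ 2` over `k[G]` with values in a module
`M` which is `p`-adically separated for all primes `p`,
`centralBinom n • T (tr (ρ(e) (δ ρ(e)) ^ (2 n))) = 0`.
For a free (or stably free) module these numbers are zero.
-/

set_option autoImplicit false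
set_option linter.style.haveILetI false

namespace Pool.Agent.Results.MP_551055_al.ResiduallyFinite

open Pool.Agent.H23R2.Ch

universe u1 u2 u3 u4 u5 u6

theorem result (k : Type u1) [CommRing k] (G : Type u2) [Group G]
    (htf : ∀ H : Subgroup G, H.FG → ∃ p : ℕ, p.Prime ∧ ∀ g ∈ H, g ^ p = 1 → g = 1)
    (hG : (∀ H : Subgroup G, H.FG → ∀ g ∈ H, g ≠ 1 →
        ∃ p : ℕ, p.Prime ∧ ∀ j, 1 ≤ j → ∀ c ∈ H, c * g * c⁻¹ ≠ g ^ p ^ j) ∨
      (∀ H : Subgroup G, H.FG → Group.ResiduallyFinite H) ∨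
      (∃ (K : Type u6) (_ : Field K) (N : ℕ) (φ : G →* Matrix.GeneralLinearGroup (Fin N) K),
        Function.Injective φ))
    (d : Type u3) [Fintype d] [DecidableEq d]
    (e : Matrix d d (MonoidAlgebra k G)) (he : e * e = e)
    (M : Type u4) [AddCommGroup M] [Module k M]
    (hM : ∀ p : ℕ, p.Prime → ∀ x : M, (∀ m : ℕ, ∃ y : M, p ^ m • y = x) → x = 0)
    (Ω : Type u5) [Ring Ω] [Algebra k Ω] (𝒜 : ℕ → Submodule k Ω) [GradedAlgebra 𝒜]
    (δ : Ω →ₗ[k] Ω) (T : Ω →ₗ[k] M) (n : ℕ) (hn : 1 ≤ n) (h : IsCycle (2 * n) 𝒜 δ T)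
    (ρ : MonoidAlgebra k G →ₐ[k] Ω) (hρ : ∀ a, ρ a ∈ 𝒜 0) :
    (Nat.centralBinom n) • T ((e.map ρ) * ((e.map ρ).map δ) ^ (2 * n)).trace = 0 ∧
    ((∀ x : M, (Nat.centralBinom n) • x = 0 → x = 0) →
      T ((e.map ρ) * ((e.map ρ).map δ) ^ (2 * n)).trace = 0) := by
  have hG2 : ∀ H : Subgroup G, H.FG → ∀ g ∈ H, g ≠ 1 →
      ∃ p : ℕ, p.Prime ∧ ∀ j, 1 ≤ j → ∀ c ∈ H, c * g * c⁻¹ ≠ g ^ p ^ j := by
    have hrf : (∀ H : Subgroup G, H.FG → Group.ResiduallyFinite H) →
        ∀ H : Subgroup G, H.FG → ∀ g ∈ H, g ≠ 1 →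
          ∃ p : ℕ, p.Prime ∧ ∀ j, 1 ≤ j → ∀ c ∈ H, c * g * c⁻¹ ≠ g ^ p ^ j := by
      intro h1 H hH g hg hg1
      haveI := h1 H hH
      obtain ⟨p, hp, hc⟩ := Pool.Agent.H290R4.ChernZ.exists_prime (⟨g, hg⟩ : H)
        (fun h0 => hg1 (congrArg Subtype.val h0))
      refine ⟨p, hp, fun j hj c hcH heq => hc j hj ⟨c, hcH⟩ (Subtype.ext ?_)⟩
      simpa using heq
    rcases hG with h1 | h1 | ⟨K, iK, N, φ, hφ⟩
    · exact h1
    · exact hrf h1
    · refine hrf fun H hH => ?_
      haveI : Group.FG H := (Group.fg_iff_subgroup_fg H).2 hH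
      exact Pool.Agent.H290R4.ChernZ.malcev (φ.comp H.subtype)
        (hφ.comp H.subtype_injective)
  have hfg := Pool.Agent.H290R4.ChernZ.supp_fg e
  obtain ⟨p, hp, hpt⟩ := htf _ hfg
  have h1 := Pool.Agent.H290R4.ChernZ.vanish (ρ := ρ) e he ⟨p, hp, hM p hp, hpt⟩ hn h hρ (by
    intro g hg hg1 hconj
    exfalso
    obtain ⟨q, hq, hqc⟩ := hG2 _ hfg g hg hg1
    obtain ⟨j, hj, c, hc, hcg⟩ := hconj q hq (hM q hq)
    exact hqc j hj c hc hcg)
  exact ⟨h1, fun h2 => h2 _ h1⟩

end Pool.Agent.Results.MP_551055_al.ResiduallyFinite
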